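import Pool.Agent.Lib.MP_3ba922_nt.Edge5

set_option autoImplicit false

open Pool.Agent.Lib.MP_3ba922_nt Filter Topology

theorem Pool.Agent.Lib.MP_3ba922_nt.Old.boundaryExponent :
    ∀ c₀ : ℂ, c₀.re = -1 → c₀.im ≠ 0 →
      Tendsto (fun c : ℂ => Real.log |1 - rad c| / Real.log (-c.re - 1))
        (𝓝[{c : ℂ | c.re < -1}] c₀) (𝓝 (1 / Real.pi)) := by
  intro c₀ h1 h2
  refine ((expo (abs_pos.mpr h2)).comp (tendsto_param c₀ h1)).congr fun c => ?_
  simp only [Function.comp, neg_neg, rad_abs, Real.log_abs]
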