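import Pool.Agent.Lib.MP_3ba922_nt.Edge5

set_option autoImplicit false

open Pool.Agent.Lib.MP_3ba922_nt Filter Topology

theorem Pool.Agent.Lib.MP_3ba922_nt.Old.boundaryModulus :
    ∀ c₀ : ℂ, c₀.re = -1 → c₀.im ≠ 0 →
      Tendsto (fun c : ℂ => (1 - rad c) / ⨅ n : ℕ, ‖sigmaC c (n + 1)‖)
        (𝓝[{c : ℂ | c.re < -1}] c₀) (𝓝 1) := by
  intro c₀ h1 h2
  refine ((ratio (abs_pos.mpr h2)).comp (tendsto_param c₀ h1)).congr fun c => ?_
  simp only [Function.comp, neg_neg, rad_abs, low_abs]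
  rfl
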